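import Mathlib
import Pool.Agent.Lib.MP_08f711_an.CM.NotConv
import Pool.Agent.Lib.MP_08f711_an.CM.Conv

/-!
A smoothly bounded pseudoconvex domain of finite type in complex two-space whose homogeneous
model at the origin is convex and which is not locally convexifiable at the origin.
-/

open Set Filter Topology Asymptotics
open scoped ContDiff

namespace Pool.Agent.Results.MP_08f711_an.ConvexModel

/-- The Levi form (complex Hessian) of a real function `ρ` at the point `q` in the direction `v`: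
one quarter of `D²ρ(q)(v,v) + D²ρ(q)(iv,iv)`. -/
noncomputable def leviForm (ρ : ℂ × ℂ → ℝ) (q v : ℂ × ℂ) : ℝ :=
  (fderiv ℝ (fderiv ℝ ρ) q v v + fderiv ℝ (fderiv ℝ ρ) q (Complex.I • v) (Complex.I • v)) / 4

/-- The hypersurface where `ρ` vanishes has finite type at `q` in the sense of D'Angelo: for all
non-constant holomorphic curve germs `γ` with `γ 0 = q`, the vanishing order of `ρ ∘ γ` at `0` is
at most a fixed constant times the vanishing order of `γ - q` at `0`. -/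
def FiniteTypeAt (ρ : ℂ × ℂ → ℝ) (q : ℂ × ℂ) : Prop :=
  ∃ C : ℕ, ∀ γ : ℂ → ℂ × ℂ, AnalyticAt ℂ γ 0 → γ 0 = q → ∀ ν N : ℕ,
    analyticOrderAt (fun t => γ t - q) 0 = (ν : ℕ∞) →
    (fun t => ρ (γ t)) =O[𝓝 0] (fun t : ℂ => ‖t‖ ^ N) → N ≤ C * ν

/-- The homogeneous part of degree ten. -/
noncomputable def P (z : ℂ) : ℝ := 26 * ‖z‖ ^ 10 + 10 * ‖z‖ ^ 4 * (z ^ 6).re

/-- The defining function. -/
noncomputable def rho (x : ℂ × ℂ) : ℝ :=
  x.2.re + ‖x.2‖ ^ 2 + P x.1 + 4 * ‖x.1‖ ^ 2 * (x.1 ^ 3).re ^ 3 + ‖x.1‖ ^ 12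

/-- The domain. -/
def Omega : Set (ℂ × ℂ) := {x | rho x < 0}

theorem result :
    IsOpen Omega ∧ IsConnected Omega ∧ Bornology.IsBounded Omega ∧ ContDiff ℝ ∞ rho ∧
      (∀ q ∈ frontier Omega, fderiv ℝ rho q ≠ 0) ∧ (∀ q v, 0 ≤ leviForm rho q v) ∧
      (∀ q v, q.1 ≠ 0 → v ≠ 0 → 0 < leviForm rho q v) ∧
      (∀ q ∈ frontier Omega, FiniteTypeAt rho q) ∧ (0 : ℂ × ℂ) ∈ frontier Omega ∧
      Convex ℝ {x : ℂ × ℂ | x.2.re + P x.1 < 0} ∧
      ∀ U : Set (ℂ × ℂ), IsOpen U → (0 : ℂ × ℂ) ∈ U → ∀ Φ : ℂ × ℂ → ℂ × ℂ,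
        DifferentiableOn ℂ Φ (U ∩ Omega) → InjOn Φ (U ∩ Omega) →
          ¬ Convex ℝ (Φ '' (U ∩ Omega)) := by
  open Pool.Agent.Lib.MP_08f711_an.CM in
  have e : rho = rc := by
    funext x
    simp only [rho, P, rc, Qc, Complex.normSq_eq_norm_sq]
    ring
  have lv : ∀ q v : ℂ × ℂ, 100 * Complex.normSq q.1 ^ 4 * Complex.normSq v.1 +
      Complex.normSq v.2 ≤ leviForm rc q v := fun q v => by
    have := levi_rc q v
    simp only [iteratedFDeriv_two_apply, Matrix.cons_val_zero, Matrix.cons_val_one] at this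
    unfold leviForm
    linarith
  unfold Omega
  rw [e]
  refine ⟨isOpen_lt continuous_rc continuous_const, isConnected_dom, isBounded_dom, contDiff_rc,
    fun q hq => fderiv_rc_ne_zero (rc_eq_zero_of_frontier hq), fun q v => ?_,
    fun q v hq hv => ?_, fun q hq => ⟨10, fun γ hγ h0 ν N hν hN =>
      order_contact_rc (rc_eq_zero_of_frontier hq) hγ h0 hν hN⟩,
    zero_mem_frontier_dom, convex_model, fun U hU h0 Φ hΦ hinj => not_convex_image_rc hU h0 hΦ hinj⟩
  · refine le_trans ?_ (lv q v)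
    have := Complex.normSq_nonneg v.1
    have := Complex.normSq_nonneg v.2
    positivity
  · refine lt_of_lt_of_le ?_ (lv q v)
    have a1 := Complex.normSq_nonneg v.1
    have a2 := Complex.normSq_nonneg v.2
    have a3 := Complex.normSq_pos.2 hq
    by_cases h1 : v.1 = 0
    · have : v.2 ≠ 0 := fun h2 => hv (Prod.ext h1 h2)
      have := Complex.normSq_pos.2 this
      positivity
    · have := Complex.normSq_pos.2 h1
      positivity

end Pool.Agent.Results.MP_08f711_an.ConvexModel
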