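import Mathlib
import Pool.Agent.FS.NoMean.Core

/-!
A finite type domain in complex two-space without a local holomorphic symmetric mean.
-/

open Set

namespace Pool.Agent.Results.MP_08f711_an.NoMean

/-- The defining function. -/
noncomputable def rho (x : ℂ × ℂ) : ℝ :=
  x.2.re + ‖x.2‖ ^ 2 + (26 * ‖x.1‖ ^ 10 + 10 * ‖x.1‖ ^ 4 * (x.1 ^ 6).re) +
    4 * ‖x.1‖ ^ 2 * (x.1 ^ 3).re ^ 3 + ‖x.1‖ ^ 12

theorem result (U : Set (ℂ × ℂ)) (hU : IsOpen U) (h0 : (0 : ℂ × ℂ) ∈ U) (G : Set (ℂ × ℂ))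
    (hG : G = U ∩ {x | rho x < 0}) (m : (ℂ × ℂ) × (ℂ × ℂ) → ℂ × ℂ)
    (hd : DifferentiableOn ℂ m (G ×ˢ G)) (hm : ∀ x ∈ G, ∀ y ∈ G, rho (m (x, y)) ≤ 0)
    (hs : ∀ x ∈ G, ∀ y ∈ G, m (x, y) = m (y, x)) : ∃ x ∈ G, m (x, x) ≠ x := by
  open Pool.Agent.Lib.MP_08f711_an.CM in
  have e : rho = rc := by
    funext x
    simp only [rho, rc, Qc, Complex.normSq_eq_norm_sq]
    ring
  rw [e] at hG hm
  subst hG
  by_contra h
  exact Pool.Agent.FS.NoMean.no_mean hU h0 hd hm hs fun x hx =>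
    not_not.1 fun hne => h ⟨x, hx, hne⟩

/-- The local piece of the domain is not a holomorphic retract of a convex set. -/
theorem no_retract (U : Set (ℂ × ℂ)) (hU : IsOpen U) (h0 : (0 : ℂ × ℂ) ∈ U) (G : Set (ℂ × ℂ))
    (hG : G = U ∩ {x | rho x < 0}) (E : Type) [NormedAddCommGroup E] [NormedSpace ℂ E]
    (D : Set E) (hD : Convex ℝ D) (i : ℂ × ℂ → E) (r : E → ℂ × ℂ) (hi : DifferentiableOn ℂ i G)
    (hr : DifferentiableOn ℂ r D) (mi : MapsTo i G D) (mr : ∀ y ∈ D, rho (r y) ≤ 0) :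
    ∃ x ∈ G, r (i x) ≠ x := by
  have c : ∀ v : E, (1 / 2 : ℝ) • v = (1 / 2 : ℂ) • v := fun v => by
    rw [← Complex.coe_smul]; norm_num
  have k : ∀ x ∈ G, ∀ y ∈ G, (1 / 2 : ℂ) • (i x + i y) ∈ D := fun x hx y hy => by
    have := hD (mi hx) (mi hy) (a := 1 / 2) (b := 1 / 2) (by norm_num) (by norm_num) (by norm_num)
    rwa [← smul_add, c] at this
  obtain ⟨x, hx, h⟩ := result U hU h0 G hG (fun p => r ((1 / 2 : ℂ) • (i p.1 + i p.2)))
    (hr.comp (((hi.comp differentiableOn_fst fun p hp => hp.1).add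
      (hi.comp differentiableOn_snd fun p hp => hp.2)).const_smul (1 / 2 : ℂ))
      fun p hp => k _ hp.1 _ hp.2)
    (fun x hx y hy => mr _ (k x hx y hy)) (fun x _ y _ => by simp only [add_comm])
  refine ⟨x, hx, fun e => h ?_⟩
  have : (1 / 2 : ℂ) • (i x + i x) = i x := by
    rw [← two_smul ℂ, smul_smul]; norm_num
  simp only [this, e]

end Pool.Agent.Results.MP_08f711_an.NoMean
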